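import Pool.Agent.Lib.CLF.Top

open Pool.Agent.Lib.MP_08f962_ag Pool.Agent.Lib.CLF

namespace Pool.Agent.Results.MP_08f962_ag.CoarseLefschetz

theorem result (n m : ℕ) (hn : 1 ≤ n) (hm : 1 ≤ m) : ∃ K : ℝ, ∀ d e : ℕ, 2 * (n + m) ≤ d →
    2 * (n + m) ≤ e → VeryGeneral (n := n) (m := m) (d, e) fun F => ∀ k,
      restr n m d e k ⊆ effCone F k ∧ ∀ c ∈ effCone F k, ∃ c' ∈ restr n m d e k,
        ∀ p, c p ≤ K * c' p ∧ c' p ≤ K * c p :=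
  stMAIN n m hn hm

end Pool.Agent.Results.MP_08f962_ag.CoarseLefschetz
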