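import Pool.Agent.Lib.MP_08f962_ag.Main

open Pool.Agent.Lib.MP_08f962_ag

namespace Pool.Agent.Results.MP_08f962_ag.LineFactor

theorem result (m d e : ℕ) (hd : 1 ≤ d) (he : 1 ≤ e) :
    VeryGeneral (n := 1) (m := m) (d, e) fun F => ∀ k < m, effCone F k =
      {c | (∀ a b, c (a, b) ≠ 0 → a + b = k ∧ a ≤ 1) ∧ 0 ≤ c (1, k - 1) ∧
        slope m d e k * c (1, k - 1) ≤ c (0, k)} :=
  main m d e he

end Pool.Agent.Results.MP_08f962_ag.LineFactor
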