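import Pool.Agent.Lib.LI11.N

open Pool.Agent.Lib.MP_08f962_ag

namespace Pool.Agent.Results.MP_08f962_ag.RayIff

theorem result (n m d e : ℕ) (hn : 1 ≤ n) (hm : 1 ≤ m) (hd : 1 ≤ d) (he : 1 ≤ e) :
    VeryGeneral (n := n) (m := m) (d, e) fun F => ∀ a α b β Δ : ℕ, a + α = n → b + β = m →
      Δ = ((a + d).choose d - β) * ((b + e).choose e - α) →
      Δ = 0 ∨ α * β < Δ ∨ (3 ≤ n ∧ 3 ≤ m ∧ m ≤ d + 1 ∧ n ≤ e + 1) →
      (Pi.single (a, b) 1 ∈ effCone F (a + b) ↔ Δ = 0) :=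
  Pool.Agent.Lib.LI11.ray_iff n m d e hn hm hd he

end Pool.Agent.Results.MP_08f962_ag.RayIff
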