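import Pool.Agent.Lib.LI11.L

open Pool.Agent.Lib.MP_08f962_ag

namespace Pool.Agent.Results.MP_08f962_ag.RayProduct

theorem result (n m d e a b : ℕ) (F : S n m) (hF : F ∈ Forms n m (d, e)) :
    (∃ c ∈ effCone F (a + b + 2), c (a + 1, b + 1) ≠ 0 ∧ c (a + 2, b) = 0 ∧ c (a, b + 2) = 0) ↔
      ∃ (P : Ideal (S n m)) (t : ℝ), 0 < t ∧ P.IsPrime ∧ IsBihom P ∧ F ∈ P ∧
        IsClass P (a + b + 2) (Pi.single (a + 1, b + 1) t) :=
  Pool.Agent.Lib.LI11.ray_prod hF a b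

end Pool.Agent.Results.MP_08f962_ag.RayProduct
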